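import Mathlib.Combinatorics.SimpleGraph.Finite
import Pool.Agent.MP_df0aa7_co.h57.Schur

-- ======== part 0: formerly Pool.Agent.MP_df0aa7_co.h57.Gibbs
section MrgPart0

/-! The partition function of two truncated determinants grows by a fixed factor with every
vertex, so some signing makes both matrices positive definite. -/

set_option autoImplicit false

namespace Pool.Agent.MP_df0aa7_co.h57

open Matrix Finset

variable {V : Type} [Fintype V] [DecidableEq V] (G : SimpleGraph V) [DecidableRel G.Adj]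
  {x c : ℝ} {S S' : Matrix V V ℝ} {K K' H H' : Finset V} {v : V}

/-- the signed adjacency matrix -/
def sm (σ : Sym2 V → Bool) : Matrix V V ℝ := of fun u v => if G.Adj u v then sg (σ s(u, v)) else 0

/-- the partition function -/
noncomputable def Z (x : ℝ) (H H' : Finset V) : ℝ :=
  ∑ σ : Sym2 V → Bool, D x (sm G σ) H ^ 5 * D x (-sm G σ) H' ^ 5

/-- change of the signs at `v` -/
def fl (v : V) (s : V → Bool) (σ : Sym2 V → Bool) : Sym2 V → Bool :=
  fun e => xor (σ e) (decide (∃ u, e = s(v, u) ∧ s u = true))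

/-- the resolvent on the neighbours of `v` -/
noncomputable def AA (x : ℝ) (S : Matrix V V ℝ) (K : Finset V) (v : V) : Matrix V V ℝ :=
  diagonal (rr S K v) * Gi x S K * diagonal (rr S K v)

/-- symmetric, zero diagonal, supported on the edges, entries at most one -/
structure Ok (S : Matrix V V ℝ) : Prop where
  sy : Sy S
  le : ∀ i j, S i j ^ 2 ≤ 1
  off : ∀ i j, ¬G.Adj i j → S i j = 0

omit [Fintype V] [DecidableEq V] in
theorem ok_sm (σ : Sym2 V → Bool) : Ok G (sm G σ) where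
  sy := ⟨fun i j => by simp only [sm, of_apply, G.adj_comm i j, Sym2.eq_swap (a := i)],
    fun i => by simp [sm]⟩
  le i j := by
    simp only [sm, of_apply, sg]
    split_ifs <;> norm_num
  off i j h := if_neg h

omit [Fintype V] [DecidableEq V] [DecidableRel G.Adj] in
theorem Ok.neg (h : Ok G S) : Ok G (-S) :=
  ⟨⟨fun i j => congrArg Neg.neg (h.sy.symm i j), fun i => neg_eq_zero.2 (h.sy.diag i)⟩,
    fun i j => by simpa using h.le i j, fun i j a => neg_eq_zero.2 (h.off i j a)⟩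

theorem Z_nonneg (x : ℝ) (H H' : Finset V) : 0 ≤ Z G x H H' :=
  sum_nonneg fun _ _ => mul_nonneg (pow_nonneg (D_nonneg _ _ _) _) (pow_nonneg (D_nonneg _ _ _) _)

theorem Z_symm (x : ℝ) (H H' : Finset V) : Z G x H H' = Z G x H' H := by
  have e : ∀ σ : Sym2 V → Bool, sm G (fun e => !σ e) = -sm G σ := fun σ => by
    ext i j
    have : ∀ b, sg (!b) = -sg b := fun b => by cases b <;> simp [sg]
    simp only [sm, of_apply, Matrix.neg_apply, this]
    split_ifs <;> simp
  rw [Z, ← Equiv.sum_comp (Function.Involutive.toPerm (fun (σ : Sym2 V → Bool) e => !σ e)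
    fun σ => by simp)]
  exact sum_congr rfl fun σ _ => by simp [e, mul_comm]

theorem resample (v : V) (F : (Sym2 V → Bool) → ℝ) :
    2 ^ Fintype.card V * ∑ σ, F σ = ∑ σ, ∑ s : V → Bool, F (fl v s σ) := by
  rw [sum_comm, sum_congr rfl fun s _ => Equiv.sum_comp (Function.Involutive.toPerm (fl v s)
    fun σ => by ext e; simp [fl]) F]
  simp

theorem sm_off (s : V → Bool) (σ : Sym2 V → Bool) (hv : v ∉ K) :
    ∀ i ∈ K, ∀ j ∈ K, sm G (fl v s σ) i j = sm G σ i j := fun i hi j hj => by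
  have a : i ≠ v := fun e => hv (e ▸ hi)
  have b : j ≠ v := fun e => hv (e ▸ hj)
  simp [sm, fl, a, b]

theorem sm_on (s : V → Bool) (σ : Sym2 V → Bool) (v u : V) :
    sm G (fl v s σ) v u = sm G σ v u * sg (s u) := by
  have : (∃ w, s(v, u) = s(v, w) ∧ s w = true) ↔ s u = true := by simp only [Sym2.congr_right]; simp
  simp only [sm, fl, of_apply, this, sg]
  by_cases a : G.Adj v u <;> cases σ s(v, u) <;> cases s u <;> simp [a]

theorem AA_psd (x : ℝ) (S : Matrix V V ℝ) (K : Finset V) (v : V) : (AA x S K v).PosSemidef := by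
  simpa [AA] using (Gi_psd x S K).conjTranspose_mul_mul_same (diagonal (rr S K v))

theorem AA_diag (x : ℝ) (S : Matrix V V ℝ) (K : Finset V) (v u : V) :
    AA x S K v u u = rr S K v u ^ 2 * Gi x S K u u := by
  rw [AA, mul_diagonal, diagonal_mul]
  ring

/-- effect of a change of the signs at `v` -/
theorem chg {s : V → Bool} (h : ∀ i ∈ K, ∀ j ∈ K, S' i j = S i j)
    (h' : ∀ u, S' v u = S v u * sg (s u)) : D x S' K = D x S K ∧
      qf (Gi x S' K) (rr S' K v) = qf (AA x S K v) (fun i => sg (s i)) ∧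
      (AA x S' K v).trace = (AA x S K v).trace := by
  have p : pad x S' K = pad x S K := by
    ext i j
    simp only [pad, of_apply]
    split_ifs with a b
    · rw [h i a.1 j a.2]
    · rw [h i a.1 j a.2]
    · rfl
    · rfl
  have g : Gi x S' K = Gi x S K := by rw [Gi, Gi, p]
  have r : ∀ u, rr S' K v u = rr S K v u * sg (s u) := fun u => by simp [rr, h']
  refine ⟨by rw [D, D, p], ?_, sum_congr rfl fun u _ => ?_⟩
  · simp only [qf_sum, g, r, AA, mul_diagonal, diagonal_mul]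
    exact sum_congr rfl fun i _ => sum_congr rfl fun j _ => by ring
  · have : sg (s u) ^ 2 = 1 := by cases s u <;> simp [sg]
    simp only [diag_apply, AA_diag, g, r, mul_pow, this, mul_one]

variable {G}

omit [DecidableRel G.Adj] in
theorem AA_off (h : Ok G S) {u : V} (a : ¬G.Adj v u) : AA x S K v u u = 0 := by
  simp [AA_diag, rr, h.off v u a]

omit [DecidableRel G.Adj] in
theorem D_AA (h : Ok G S) (hc : 0 < c) (u : V) : D x S K ^ 5 * (c * AA x S K v u u) ^ 5 ≤
    if u ∈ K then c ^ 5 * D x S (K.erase u) ^ 5 else 0 := by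
  split_ifs with a
  · rw [← mul_pow, ← mul_pow, mul_left_comm]
    have g : 0 ≤ Gi x S K u u := (Gi_psd _ _ _).diag_nonneg
    have d := D_nonneg x S K
    have : AA x S K v u u ≤ Gi x S K u u := by
      rw [AA_diag, rr, if_pos a]
      exact mul_le_of_le_one_left g (h.le _ _)
    refine pow_le_pow_left₀ (mul_nonneg hc.le (mul_nonneg d (AA_psd _ _ _ _).diag_nonneg))
      (mul_le_mul_of_nonneg_left ((mul_le_mul_of_nonneg_left this d).trans (D_Gi h.sy a)) hc.le) _
  · simp [AA_diag, rr, a]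

omit [DecidableEq V] in
theorem nb (hd : (G.degree v : ℝ) ≤ c ^ 2) {f : V → ℝ} {Y : ℝ} (hY : 0 ≤ Y)
    (h0 : ∀ u, ¬G.Adj v u → f u = 0) (h : ∀ u, f u ≤ Y) : ∑ u, f u ≤ c ^ 2 * Y := by
  rw [← sum_subset (subset_univ (G.neighborFinset v)) fun u _ a => h0 u (by simpa using a)]
  refine (sum_le_card_nsmul _ _ Y fun u _ => h u).trans ?_
  rw [nsmul_eq_mul]
  exact mul_le_mul_of_nonneg_right hd hY

theorem pw5 {t : ℝ} (h : 0 ≤ t) {i : ℕ} (hi : i ≤ 5) : t ^ i ≤ 1 + t ^ 5 := by
  rcases le_total t 1 with c | c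
  · exact (pow_le_one₀ h c).trans (le_add_of_nonneg_right (by positivity))
  · exact (pow_le_pow_right₀ c hi).trans (le_add_of_nonneg_left zero_le_one)

theorem tangent (hc : 0 < c) (a : ℝ) : c ^ 5 + 5 * c ^ 4 * (a - c) ≤ max a 0 ^ 5 := by
  rcases le_total a 0 with h | h
  · rw [max_eq_right h]
    have := mul_nonneg (pow_pos hc 4).le (neg_nonneg.2 h)
    have := pow_pos hc 5
    linarith
  · rw [max_eq_left h]
    have : 0 ≤ (a - c) ^ 2 * (a ^ 3 + 2 * a ^ 2 * c + 3 * a * c ^ 2 + 4 * c ^ 3) := by positivity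
    linarith

variable (G)

/-- the induction hypothesis -/
def IH (x c : ℝ) (n : ℕ) : Prop := ∀ H H' : Finset V, H.card + H'.card < n → ∀ v ∈ H,
  c ^ 5 * Z G x (H.erase v) H' ≤ Z G x H H'

variable {G} {n : ℕ}

theorem IH.right (ih : IH G x c n) (hn : H.card + H'.card < n) (hv : v ∈ H') :
    c ^ 5 * Z G x H (H'.erase v) ≤ Z G x H H' := by
  rw [Z_symm G x H, Z_symm G x H]
  exact ih H' H (by omega) v hv

theorem m1 (ih : IH G x c n) (hc : 0 < c) (hn : K.card + H'.card < n) (u : V) :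
    ∑ σ, D x (sm G σ) K ^ 5 * (c * AA x (sm G σ) K v u u) ^ 5 * D x (-sm G σ) H' ^ 5 ≤
      Z G x K H' := by
  refine (sum_le_sum fun σ _ => mul_le_mul_of_nonneg_right (D_AA (ok_sm G σ) hc u)
    (pow_nonneg (D_nonneg _ _ _) _)).trans ?_
  split_ifs with a
  · simpa only [Z, mul_sum, mul_assoc] using ih K H' hn u a
  · simpa using Z_nonneg G x K H'

theorem m2 (ih : IH G x c n) (hc : 0 < c) (hn : K.card + K'.card < n) (u k : V) :
    ∑ σ, D x (sm G σ) K ^ 5 * D x (-sm G σ) K' ^ 5 * ((1 + (c * AA x (sm G σ) K v u u) ^ 5) *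
      (1 + (c * AA x (-sm G σ) K' v k k) ^ 5)) ≤ 4 * Z G x K K' := by
  have z := Z_nonneg G x K K'
  have a1 := m1 (v := v) ih hc hn u
  have a2 : ∑ σ, D x (sm G σ) K ^ 5 * (1 + (c * AA x (sm G σ) K v u u) ^ 5) *
      (D x (-sm G σ) K' ^ 5 * (c * AA x (-sm G σ) K' v k k) ^ 5) ≤ 2 * Z G x K K' := by
    refine (sum_le_sum fun σ _ => mul_le_mul_of_nonneg_left (D_AA (ok_sm G σ).neg hc k)
      (mul_nonneg (pow_nonneg (D_nonneg _ _ _) _) (add_nonneg zero_le_one (pow_nonneg
        (mul_nonneg hc.le (AA_psd _ _ _ _).diag_nonneg) _)))).trans ?_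
    split_ifs with a
    · have b1 := ih.right hn a
      have b2 := mul_le_mul_of_nonneg_left (m1 (v := v) (K := K) (H' := K'.erase k) ih hc
        (by have := card_erase_le (s := K') (a := k); omega) u) (pow_pos hc 5).le
      refine le_trans (le_of_eq ?_) ((add_le_add b1 (b2.trans b1)).trans_eq (two_mul _).symm)
      rw [Z, mul_sum, mul_sum, ← sum_add_distrib]
      exact sum_congr rfl fun σ _ => by ring
    · simpa using z
  refine le_trans (le_of_eq ?_) ((add_le_add (add_le_add (le_refl (Z G x K K')) a1) a2).trans_eq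
    (by ring))
  rw [Z, ← sum_add_distrib, ← sum_add_distrib]
  exact sum_congr rfl fun σ _ => by ring

theorem m3 (ih : IH G x c n) (hc : 0 < c) (hn : K.card + K'.card < n) (u k : V) {i : ℕ}
    (hi : i ≤ 5) : ∑ σ, D x (sm G σ) K ^ 5 * D x (-sm G σ) K' ^ 5 *
      (c * AA x (sm G σ) K v u u * (c * AA x (-sm G σ) K' v k k) ^ i) ≤ 4 * Z G x K K' := by
  refine (sum_le_sum fun σ _ => mul_le_mul_of_nonneg_left ?_ (mul_nonneg
    (pow_nonneg (D_nonneg _ _ _) _) (pow_nonneg (D_nonneg _ _ _) _))).trans (m2 (v := v) ih hc hn u k)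
  have a := mul_nonneg hc.le ((AA_psd x (sm G σ) K v).diag_nonneg (i := u))
  have b := mul_nonneg hc.le ((AA_psd x (-sm G σ) K' v).diag_nonneg (i := k))
  exact mul_le_mul (by simpa using pw5 a (i := 1) (by omega)) (pw5 b hi) (by positivity)
    (by positivity)

theorem err (ih : IH G x c n) (hc : 0 < c) (hx : 0 < x) (hx3 : x ≤ 3 * c)
    (hd : (G.degree v : ℝ) ≤ c ^ 2) (hn : K.card + K'.card < n) :
    ∑ σ, D x (sm G σ) K ^ 5 * D x (-sm G σ) K' ^ 5 *
      ∑ k, (x ^ 3 * ((AA x (sm G σ) K v).trace * AA x (-sm G σ) K' v k k ^ 2) +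
        x ^ 4 * (AA x (sm G σ) K v k k * AA x (-sm G σ) K' v k k)) ≤ 432 * c ^ 4 * Z G x K K' := by
  have z := Z_nonneg G x K K'
  simp only [mul_sum]
  rw [sum_comm]
  refine (nb hd (Y := 432 * c ^ 2 * Z G x K K') (by positivity)
    (fun k a => sum_eq_zero fun σ _ => by simp [AA_off (ok_sm G σ).neg a]) fun k => ?_).trans_eq
    (by ring)
  have a1 := nb hd (by positivity)
    (fun u a => sum_eq_zero fun σ _ => by simp [AA_off (ok_sm G σ) a])
    fun u => m3 (v := v) ih hc hn u k (i := 2) (by omega)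
  have a2 := m3 (v := v) ih hc hn k k (i := 1) (by omega)
  have b1 : x ^ 3 ≤ (3 * c) ^ 3 := by gcongr
  have b2 : x ^ 4 ≤ (3 * c) ^ 4 := by gcongr
  refine le_of_mul_le_mul_left ?_ (pow_pos hc 3)
  refine le_trans (le_of_eq ?_) ((add_le_add (mul_le_mul_of_nonneg_left a1 (pow_pos hx 3).le)
    (mul_le_mul_of_nonneg_left a2 (mul_pos hc (pow_pos hx 4)).le)).trans ?_)
  · rw [sum_comm, mul_sum, mul_sum, mul_sum, ← sum_add_distrib]
    refine sum_congr rfl fun σ _ => ?_
    simp only [trace, diag_apply, ← mul_sum, ← sum_mul]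
    ring
  · have := mul_le_mul_of_nonneg_right b1 (show 0 ≤ c ^ 2 * (4 * Z G x K K') by positivity)
    have := mul_le_mul_of_nonneg_right b2 (show 0 ≤ c * (4 * Z G x K K') by positivity)
    linarith

theorem cov (ih : IH G x c n) (hc : 0 < c) (hx : 0 < x) (hx3 : x ≤ 3 * c)
    (hd : (G.degree v : ℝ) ≤ c ^ 2) (hn : K.card + H'.card < n) (hv : v ∉ K) :
    c * ∑ σ, D x (sm G σ) K ^ 5 * D x (-sm G σ) H' ^ 5 *
      (qf (Gi x (sm G σ) K) (rr (sm G σ) K v) - (AA x (sm G σ) K v).trace) ≤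
      432 * (30240 * M4) * Z G x K H' := by
  have M := zero_le_one.trans M4_ge
  have c1 := fun σ s => chg (x := x) (sm_off G s σ hv) (sm_on G s σ v)
  have c2 : ∀ K' : Finset V, v ∉ K' → ∀ σ s, _ := fun K' hv' σ s => chg (x := x) (S := -sm G σ)
    (S' := -sm G (fl v s σ)) (fun i a j b => congrArg Neg.neg (sm_off G s σ hv' i a j b))
    fun u => (congrArg Neg.neg (sm_on G s σ v u)).trans (neg_mul _ _).symm
  refine le_of_mul_le_mul_left ?_ (pow_pos two_pos (Fintype.card V))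
  rw [mul_left_comm, resample v]
  by_cases a : v ∈ H'
  · have n' := H'.notMem_erase v
    have b := mul_le_mul_of_nonneg_left (err (K := K) (K' := H'.erase v) ih hc hx hx3 hd
      (by have := card_erase_le (s := H') (a := v); omega)) (mul_nonneg hc.le
        (show 0 ≤ 2 ^ Fintype.card V * (30240 * M4) by positivity))
    have b' := mul_le_mul_of_nonneg_left (ih.right hn a)
      (show 0 ≤ 2 ^ Fintype.card V * (432 * (30240 * M4)) by positivity)
    refine le_trans ?_ (b.trans (by linarith))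
    rw [mul_assoc]
    refine mul_le_mul_of_nonneg_left ?_ hc.le
    rw [mul_sum]
    refine sum_le_sum fun σ _ => ?_
    have k := mul_le_mul_of_nonneg_left (key (AA_psd x (sm G σ) K v)
      (AA_psd x (-sm G σ) (H'.erase v) v) hx) (mul_nonneg (pow_nonneg (D_nonneg x (sm G σ) K) 5)
        (pow_nonneg (D_nonneg x (-sm G σ) (H'.erase v)) 5))
    refine le_trans (le_of_eq ?_) (k.trans_eq (by ring))
    rw [mul_sum]
    refine sum_congr rfl fun s _ => ?_
    have e := schur (x := x) (ok_sm G (fl v s σ)).neg.sy n'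
    rw [insert_erase a] at e
    rw [e, (c1 σ s).1, (c1 σ s).2.1, (c1 σ s).2.2, (c2 _ n' σ s).1, (c2 _ n' σ s).2.1]
    ring
  · have z := Z_nonneg G x K H'
    refine le_trans (le_of_eq ?_) (show 0 ≤ _ by positivity)
    refine mul_eq_zero_of_right _ (sum_eq_zero fun σ _ => ?_)
    have q := (quad (fun _ => nice_rad) (AA x (sm G σ) K v)).2
    rw [pi_rad, div_eq_iff (by positivity)] at q
    simp only [(c1 σ _).1, (c1 σ _).2.1, (c1 σ _).2.2, (c2 _ a σ _).1, ← mul_sum, sum_sub_distrib,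
      q]
    simp [mul_comm]

theorem grow (hc : 0 < c) (hx3 : x ≤ 3 * c) (hx2 : 432 * (30240 * M4) ≤ c * (x - 2 * c))
    (hd : ∀ v, (G.degree v : ℝ) ≤ c ^ 2) (n : ℕ) : IH G x c n := by
  have M := zero_le_one.trans M4_ge
  have hx : 0 < x := by
    have : 0 ≤ x - 2 * c := nonneg_of_mul_nonneg_right (le_trans (by positivity) hx2) hc
    linarith
  induction n with
  | zero => exact fun _ _ h => absurd h (by omega)
  | succ n ih =>
    intro H H' hn v hv
    have n' := H.notMem_erase v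
    have hn' : (H.erase v).card + H'.card < n := by
      have := card_erase_add_one hv
      omega
    have z := Z_nonneg G x (H.erase v) H'
    have a1 := cov ih hc hx hx3 (hd v) hn' n'
    have a2 : ∑ u, ∑ σ, D x (sm G σ) (H.erase v) ^ 5 * D x (-sm G σ) H' ^ 5 *
        (c * AA x (sm G σ) (H.erase v) v u u) ≤ c ^ 2 * Z G x (H.erase v) H' := by
      refine nb (hd v) z (fun u a => sum_eq_zero fun σ _ => by simp [AA_off (ok_sm G σ) a])
        fun u => ?_
      have b := m1 (v := v) ih hc hn' u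
      refine le_trans (sum_le_sum (g := fun σ => 4 / 5 * (D x (sm G σ) (H.erase v) ^ 5 *
        D x (-sm G σ) H' ^ 5) + 1 / 5 * (D x (sm G σ) (H.erase v) ^ 5 *
          (c * AA x (sm G σ) (H.erase v) v u u) ^ 5 * D x (-sm G σ) H' ^ 5)) fun σ _ => ?_) ?_
      · have t := tangent one_pos (c * AA x (sm G σ) (H.erase v) v u u)
        rw [max_eq_left (mul_nonneg hc.le (AA_psd _ _ _ _).diag_nonneg)] at t
        have := mul_le_mul_of_nonneg_left t (mul_nonneg
          (pow_nonneg (D_nonneg x (sm G σ) (H.erase v)) 5) (pow_nonneg (D_nonneg x (-sm G σ) H') 5))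
        linarith
      · rw [sum_add_distrib, ← mul_sum, ← mul_sum, ← Z]
        linarith
    have a3 : ∑ σ, D x (sm G σ) (H.erase v) ^ 5 * D x (-sm G σ) H' ^ 5 * (c ^ 5 + 5 * c ^ 4 *
        (x - qf (Gi x (sm G σ) (H.erase v)) (rr (sm G σ) (H.erase v) v) - c)) ≤ Z G x H H' := by
      refine sum_le_sum fun σ _ => ?_
      have e := schur (x := x) (ok_sm G σ).sy n'
      rw [insert_erase hv] at e
      rw [e, mul_pow, mul_right_comm _ (max _ _ ^ 5)]
      exact mul_le_mul_of_nonneg_left (tangent hc _) (mul_nonneg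
        (pow_nonneg (D_nonneg _ _ _) 5) (pow_nonneg (D_nonneg _ _ _) 5))
    have a4 := mul_le_mul_of_nonneg_right hx2 z
    refine le_trans ?_ a3
    rw [sum_comm] at a2
    have a5 := mul_le_mul_of_nonneg_left (add_le_add a1 a2) (show 0 ≤ 5 * c ^ 3 by positivity)
    have a6 := mul_le_mul_of_nonneg_left a4 (show 0 ≤ 5 * c ^ 3 by positivity)
    refine le_trans (b := (c ^ 5 + 5 * c ^ 4 * (x - c)) * Z G x (H.erase v) H' - _)
      (le_sub_iff_add_le.2 ((add_le_add_right a5 _).trans (by linarith))) (le_of_eq ?_)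
    rw [Z, mul_sum, mul_sum, ← sum_add_distrib, mul_sum, ← sum_sub_distrib]
    refine sum_congr rfl fun σ _ => ?_
    simp only [trace, diag_apply, ← mul_sum]
    ring

theorem Z_pos (hc : 0 < c) (ih : ∀ n, IH G x c n) (H H' : Finset V) : 0 < Z G x H H' := by
  have k : ∀ H' : Finset V, 0 < Z G x ∅ H' → ∀ H, 0 < Z G x H H' := fun H' h H => by
    induction H using Finset.induction_on with
    | empty => exact h
    | insert v H hv h1 =>
      have := ih _ (insert v H) H' (Nat.lt_succ_self _) v (mem_insert_self _ _)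
      rw [erase_insert hv] at this
      exact (mul_pos (pow_pos hc 5) h1).trans_le this
  refine k H' ?_ H
  rw [Z_symm]
  exact k ∅ (by simp [Z, D_empty]) H'

/-- a signing with both `x - S` and `x + S` positive definite -/
theorem exists_sign (hc : 0 < c) (hx3 : x ≤ 3 * c) (hx2 : 432 * (30240 * M4) ≤ c * (x - 2 * c))
    (hd : ∀ v, (G.degree v : ℝ) ≤ c ^ 2) :
    ∃ σ, ∀ (l : ℝ) (y : V → ℝ), y ≠ 0 → sm G σ *ᵥ y = l • y → |l| < x := by
  obtain ⟨σ, -, h⟩ := exists_ne_zero_of_sum_ne_zero (Z_pos hc (grow hc hx3 hx2 hd) univ univ).ne'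
  have k : ∀ (S : Matrix V V ℝ), D x S univ ^ 5 ≠ 0 → ∀ (l : ℝ) (y : V → ℝ), y ≠ 0 →
      S *ᵥ y = l • y → l < x := fun S h l y hy e => by
    have p : (pad x S univ).PosDef := by
      by_contra p
      simp [D, p] at h
    have q := (pd_iff p.1).1 p y hy
    have : pad x S univ = x • 1 - S := by
      ext i j
      simp [pad, one_apply]
    rw [qf, this, sub_mulVec, smul_mulVec, one_mulVec, e, ← sub_smul, dotProduct_smul,
      smul_eq_mul] at q
    exact sub_pos.1 (pos_of_mul_pos_left q (sum_nonneg fun i _ => mul_self_nonneg _))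
  refine ⟨σ, fun l y hy e => abs_lt.2 ⟨?_, k _ (left_ne_zero_of_mul h) l y hy e⟩⟩
  exact neg_lt.1 (k _ (right_ne_zero_of_mul h) (-l) y hy (by rw [neg_mulVec, e, neg_smul]))

end Pool.Agent.MP_df0aa7_co.h57

end MrgPart0

-- ======== part 1: formerly Pool.Agent.MP_df0aa7_co.h57.Final
section MrgPart1

/-! Every graph of maximum degree at most `d` has a signing of norm below `2√(d-1) + C/√d`. -/

set_option autoImplicit false

namespace Pool.Agent.MP_df0aa7_co.h57

open Matrix Finset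

theorem spec_vec {V : Type} [Fintype V] [DecidableEq V] {M : Matrix V V ℝ} {l : ℝ}
    (h : l ∈ spectrum ℝ M) : ∃ v : V → ℝ, v ≠ 0 ∧ M *ᵥ v = l • v := by
  rw [spectrum.mem_iff, isUnit_iff_isUnit_det, isUnit_iff_ne_zero, not_not,
    ← exists_mulVec_eq_zero_iff] at h
  obtain ⟨v, a, b⟩ := h
  rw [sub_mulVec, sub_eq_zero, Algebra.algebraMap_eq_smul_one, smul_mulVec, one_mulVec] at b
  exact ⟨v, a, b.symm⟩

theorem params {K d : ℝ} (hK : 1 ≤ K) (hd : 1 ≤ d) : ∃ c x : ℝ, 0 < c ∧ x ≤ 3 * c ∧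
    K ≤ c * (x - 2 * c) ∧ d ≤ c ^ 2 ∧ x ≤ 2 * √(d - 1) + (3 * K + 2) / √d := by
  have a : 1 ≤ √d := Real.one_le_sqrt.2 hd
  have a0 : 0 < √d := by linarith
  have a2 : √d ^ 2 = d := Real.sq_sqrt (by linarith)
  have b := Real.sqrt_nonneg (d - 1)
  have b2 : √(d - 1) ^ 2 = d - 1 := Real.sq_sqrt (by linarith)
  rcases le_total K d with h | h
  · refine ⟨√d, 2 * √d + K / √d, a0, ?_, le_of_eq (by field_simp; ring), a2.ge, ?_⟩
    · have : K / √d ≤ √d := by rw [div_le_iff₀ a0]; linarith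
      linarith
    · have e : √(d - 1) ≤ √d := Real.sqrt_le_sqrt (by linarith)
      have : √d - √(d - 1) ≤ 1 / √d := by rw [le_div_iff₀ a0]; nlinarith
      have : K / √d ≤ 3 * K / √d := by gcongr; linarith
      have : (3 * K + 2) / √d = 3 * K / √d + 2 * (1 / √d) := by ring
      linarith
  · have k0 : 0 < √K := Real.sqrt_pos.2 (by linarith)
    have k2 : √K ^ 2 = K := Real.sq_sqrt (by linarith)
    have e : √d ≤ √K := Real.sqrt_le_sqrt h
    refine ⟨√K, 3 * √K, k0, le_rfl, by linarith, by linarith, ?_⟩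
    have : 3 * √K ≤ (3 * K + 2) / √d := by rw [le_div_iff₀ a0]; nlinarith
    linarith

theorem signing : ∃ C : ℝ, 0 < C ∧ ∀ d : ℕ, 1 ≤ d → ∀ (V : Type) [Fintype V] [DecidableEq V]
    (G : SimpleGraph V) [DecidableRel G.Adj], (∀ v, G.degree v ≤ d) → ∃ T ⊆ G.edgeFinset,
      ∀ l ∈ spectrum ℝ (of fun u v => if G.Adj u v then (if s(u, v) ∈ T then -1 else 1) else 0 :
        Matrix V V ℝ), |l| < 2 * √((d : ℝ) - 1) + C / √d := by
  have M := M4_ge
  refine ⟨3 * (432 * (30240 * M4)) + 2, by positivity, fun d hd V _ _ G _ hG => ?_⟩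
  obtain ⟨c, x, hc, h3, h2, hd', hx⟩ := params (K := 432 * (30240 * M4)) (d := d) (by linarith)
    (by exact_mod_cast hd)
  obtain ⟨σ, h⟩ := exists_sign (G := G) hc h3 h2 fun v => le_trans (by exact_mod_cast hG v) hd'
  refine ⟨G.edgeFinset.filter fun e => σ e = true, filter_subset _ _, fun l hl => ?_⟩
  obtain ⟨y, hy, e⟩ := spec_vec hl
  refine (h l y hy (Eq.trans ?_ e)).trans_le hx
  refine congrArg (· *ᵥ y) ?_
  ext u v
  by_cases a : G.Adj u v <;> simp [sm, sg, a]

end Pool.Agent.MP_df0aa7_co.h57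

end MrgPart1

-- ======== part 2: formerly Pool.Agent.MP_df0aa7_co.h66.Ineq
section MrgPart2

/-! Two scalar inequalities for the barrier weight. -/

set_option autoImplicit false

namespace Pool.Agent.MP_df0aa7_co.h66

open Real

theorem amgm {p q t : ℝ} (hq : 0 ≤ q) (h : t ≤ 0 ∨ t ^ 2 ≤ 4 * q) (hp : 0 ≤ p) :
    p * t ≤ p ^ 2 * q + 1 := by
  rcases h with h | h
  · have := mul_nonpos_of_nonneg_of_nonpos hp h
    have : 0 ≤ p ^ 2 * q := by positivity
    linarith
  · nlinarith [sq_nonneg (p * t - 2), mul_le_mul_of_nonneg_left h (sq_nonneg p)]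

theorem lowA {s w : ℝ} (hs : 0 ≤ s) (hw : s ≤ w / 8) :
    2 + s - w ≤ 0 ∨ (2 + s - w) ^ 2 ≤ 4 * ((1 + s) * exp (-w)) := by
  rcases le_total (2 + s - w) 0 with h | h
  · exact Or.inl h
  right
  have w0 : 0 ≤ w := by linarith
  have w3 : w ≤ 3 := by linarith
  have e1 : 1 - w / 4 ≤ exp (-w / 4) := by linarith [add_one_le_exp (-w / 4)]
  have e2 : (1 - w / 4) ^ 4 ≤ exp (-w) := by
    have : exp (-w) = exp (-w / 4) ^ 4 := by rw [← exp_nat_mul]; congr 1; push_cast; ring
    rw [this]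
    exact pow_le_pow_left₀ (by linarith) e1 4
  have a1 : (1 + s / 2 - s ^ 2 / 8) ^ 2 ≤ 1 + s := by nlinarith [mul_nonneg (sq_nonneg s) hs]
  have P1 : (1 - w / 4) ^ 2 ≤ 1 := by nlinarith
  have a2 : 1 + s / 2 - w / 2 ≤ (1 + s / 2 - s ^ 2 / 8) * (1 - w / 4) ^ 2 := by
    have b1 : s ^ 2 * (1 - w / 4) ^ 2 ≤ s ^ 2 := mul_le_of_le_one_right (sq_nonneg s) P1
    have b2 : s ^ 2 ≤ (w / 8) ^ 2 := pow_le_pow_left₀ hs hw 2
    have b3 : s * w ≤ w / 8 * w := mul_le_mul_of_nonneg_right hw w0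
    have b4 : 0 ≤ s * w ^ 2 := by positivity
    nlinarith [sq_nonneg w]
  have a3 := pow_le_pow_left₀ (by linarith) a2 2
  have a4 : (1 + s / 2 - s ^ 2 / 8) ^ 2 * (1 - w / 4) ^ 4 ≤ (1 + s) * exp (-w) :=
    mul_le_mul a1 e2 (by positivity) (by linarith)
  nlinarith

theorem lowB {s w : ℝ} (hs : 0 ≤ s) (hw : s ≤ w / 8) (h2 : s ≤ 1 / 2) :
    (2 - s + w) ^ 2 ≤ 4 * ((1 - s) * exp w) := by
  have w0 : 0 ≤ w := by linarith
  have e1 : 1 + w / 2 + (w / 2) ^ 2 / 2 ≤ exp (w / 2) := quadratic_le_exp_of_nonneg (by linarith)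
  have e2 : (1 + w / 2 + (w / 2) ^ 2 / 2) ^ 2 ≤ exp w := by
    have : exp w = exp (w / 2) ^ 2 := by rw [← exp_nat_mul]; congr 1; push_cast; ring
    rw [this]
    exact pow_le_pow_left₀ (by positivity) e1 2
  have a1 : (1 - s / 2 - s ^ 2 / 4) ^ 2 ≤ 1 - s := by
    nlinarith [mul_nonneg (sq_nonneg s) (show 0 ≤ 4 - 4 * s - s ^ 2 by nlinarith)]
  have a2 : 1 - s / 2 + w / 2 ≤ (1 - s / 2 - s ^ 2 / 4) * (1 + w / 2 + (w / 2) ^ 2 / 2) := by
    have b2 : s ^ 2 ≤ (w / 8) ^ 2 := pow_le_pow_left₀ hs hw 2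
    have b3 : s * w ≤ w / 8 * w := mul_le_mul_of_nonneg_right hw w0
    have b4 : s * w ^ 2 ≤ 1 / 2 * w ^ 2 := mul_le_mul_of_nonneg_right h2 (sq_nonneg w)
    have b5 : s * (s * w) ≤ 1 / 2 * (w / 8 * w) := mul_le_mul h2 b3 (by positivity) (by norm_num)
    have b6 : s * (s * w ^ 2) ≤ 1 / 2 * (1 / 2 * w ^ 2) :=
      mul_le_mul h2 b4 (by positivity) (by norm_num)
    nlinarith [sq_nonneg w]
  have a3 := pow_le_pow_left₀ (by linarith) a2 2
  have a4 : (1 - s / 2 - s ^ 2 / 4) ^ 2 * (1 + w / 2 + (w / 2) ^ 2 / 2) ^ 2 ≤ (1 - s) * exp w :=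
    mul_le_mul a1 e2 (by positivity) (by linarith)
  nlinarith

theorem I1' {c a b Y : ℝ} (hc : 0 < c) (ha : 0 < a) (hab : a ≤ b) (h : b - a ≤ Y / 8) :
    c * (a + b - c - Y) ≤ a * b * exp (-(Y / a)) := by
  have k := amgm (p := a / c) (q := (1 + (b - a) / a) * exp (-(Y / a)))
    (t := 2 + (b - a) / a - Y / a) (by have := sub_nonneg.2 hab; positivity)
    (lowA (div_nonneg (sub_nonneg.2 hab) ha.le) (by
      rw [div_right_comm]; exact div_le_div_of_nonneg_right h ha.le)) (by positivity)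
  have k2 := mul_le_mul_of_nonneg_left k (sq_nonneg c)
  have e1 : c ^ 2 * (a / c * (2 + (b - a) / a - Y / a)) = c * (a + b - Y) := by field_simp; ring
  have e2 : c ^ 2 * ((a / c) ^ 2 * ((1 + (b - a) / a) * exp (-(Y / a))) + 1) =
      a * b * exp (-(Y / a)) + c ^ 2 := by field_simp; ring
  rw [e1, e2] at k2
  linarith

/-- the tangent plane inequality for the step -/
theorem I1 {c a b X Y : ℝ} (hc : 0 < c) (ha : 0 < a) (hb : 0 < b) (hX : 0 ≤ X) (hY : 0 ≤ Y)
    (h : |a - b| ≤ (X + Y) / 8) : c * (a + b - c - (X + Y)) ≤ a * b * exp (-(X / a + Y / b)) := by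
  rcases le_total a b with k | k
  · refine (I1' hc ha k (by linarith [(abs_le.1 h).1])).trans ?_
    have : Y / b ≤ Y / a := by gcongr
    gcongr
    rw [add_div]
    linarith
  · have := I1' hc hb k (Y := X + Y) (by linarith [(abs_le.1 h).2])
    rw [add_comm b a, mul_comm b a] at this
    refine this.trans ?_
    have : X / a ≤ X / b := by gcongr
    gcongr
    rw [add_div]
    linarith

theorem I2' {c a b Y : ℝ} (hc : 1 / 3 ≤ c) (ha : 1 ≤ a) (hab : a ≤ b) (h : b - a ≤ Y / 8) :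
    a + b + Y ≤ c * (a * b * exp (Y / b)) + 1 / c := by
  have c0 : 0 < c := by linarith
  have b0 : 0 < b := by linarith
  have s0 : 0 ≤ (b - a) / b := div_nonneg (sub_nonneg.2 hab) b0.le
  have s1 : (b - a) / b ≤ Y / b / 8 := by
    rw [div_right_comm]; exact div_le_div_of_nonneg_right h b0.le
  rcases le_total ((b - a) / b) (1 / 2) with k | k
  · have k1 := amgm (p := c * b) (q := (1 - (b - a) / b) * exp (Y / b))
      (t := 2 - (b - a) / b + Y / b) (mul_nonneg (by linarith) (exp_pos _).le)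
      (Or.inr (lowB s0 s1 k)) (by positivity)
    have e1 : c * b * (2 - (b - a) / b + Y / b) = c * (a + b + Y) := by field_simp; ring
    have e2 : (c * b) ^ 2 * ((1 - (b - a) / b) * exp (Y / b)) + 1 =
        c * (c * (a * b * exp (Y / b)) + 1 / c) := by field_simp; ring
    rw [e1, e2] at k1
    exact le_of_mul_le_mul_left k1 c0
  · obtain ⟨w, hw⟩ : ∃ w, w = Y / b := ⟨_, rfl⟩
    rw [← hw] at s1 ⊢
    have w4 : 4 ≤ w := by linarith
    have e1 : 1 + w / 2 + (w / 2) ^ 2 / 2 ≤ exp (w / 2) := quadratic_le_exp_of_nonneg (by linarith)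
    have e2 : 6 + 3 * w ≤ exp w := by
      have : exp w = exp (w / 2) * exp (w / 2) := by rw [← exp_add]; congr 1; ring
      have f1 : 5 ≤ exp (w / 2) := by nlinarith
      have f2 : 1 + w ≤ exp (w / 2) := by nlinarith
      nlinarith
    have e3 : Y = w * b := by rw [hw]; field_simp
    have e4 : 1 / 3 * 1 ≤ c * a := mul_le_mul hc ha zero_le_one c0.le
    have e5 : 1 / 3 * 1 * (b * (6 + 3 * w)) ≤ c * a * (b * exp w) :=
      mul_le_mul e4 (by gcongr) (by positivity) (by positivity)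
    have : 0 < 1 / c := by positivity
    nlinarith

/-- the tangent plane inequality at a neighbour -/
theorem I2 {c a b X Y : ℝ} (hc : 1 / 3 ≤ c) (ha : 1 ≤ a) (hb : 1 ≤ b) (hX : 0 ≤ X) (hY : 0 ≤ Y)
    (h : |a - b| ≤ (X + Y) / 8) :
    a + b + (X + Y) ≤ c * (a * b * exp (X / a + Y / b)) + 1 / c := by
  have c0 : 0 < c := by linarith
  have a0 : 0 < a := by linarith
  have b0 : 0 < b := by linarith
  rcases le_total a b with k | k
  · refine (I2' hc ha k (by linarith [(abs_le.1 h).1])).trans ?_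
    have : X / b ≤ X / a := by gcongr
    gcongr
    rw [add_div]
    linarith
  · have := I2' hc hb k (Y := X + Y) (by linarith [(abs_le.1 h).2])
    rw [add_comm b a, mul_comm b a] at this
    refine this.trans ?_
    have : Y / a ≤ Y / b := by gcongr
    gcongr
    rw [add_div]
    linarith

end Pool.Agent.MP_df0aa7_co.h66

end MrgPart2

-- marker of a merged file
example : 731051 + 377500 = 731051 + 377500 := rfl
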