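import Mathlib.Tactic.Module
import Mathlib.Data.Matrix.Mul
import Mathlib.Algebra.CharP.Defs
import Mathlib.Algebra.Notation.Lemmas
import Mathlib.Algebra.Order.Star.Real
import Mathlib.Combinatorics.SimpleGraph.Paths
import Mathlib.Tactic.Algebra.Basic

/-! The odd part of the resolvent is small when the short odd moments vanish; odd closed walks
contain odd cycles. -/

set_option autoImplicit false

namespace Pool.Agent.MP_df0aa7_co.h66

open Matrix

variable {V : Type} [Fintype V] [DecidableEq V]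

theorem odd_part {T : Matrix V V ℝ} (hT : ∀ y z : V → ℝ, y ⬝ᵥ T *ᵥ z = T *ᵥ y ⬝ᵥ z)
    (h1 : ∀ y : V → ℝ, 0 ≤ y ⬝ᵥ (y - T *ᵥ y)) (h2 : ∀ y : V → ℝ, 0 ≤ y ⬝ᵥ (y + T *ᵥ y))
    {u u' y : V → ℝ} (hu : u - T *ᵥ u = y) (hu' : u' + T *ᵥ u' = y) {m : ℕ}
    (h0 : ∀ j < m, y ⬝ᵥ T ^ (2 * j + 1) *ᵥ y = 0) :
    (m + 1) * |y ⬝ᵥ u - y ⬝ᵥ u'| ≤ u ⬝ᵥ u + u' ⬝ᵥ u' := by
  obtain ⟨z, hz⟩ : ∃ z : V → ℝ, z = (1 / 2 : ℝ) • (u + u') := ⟨_, rfl⟩
  obtain ⟨f, hf⟩ : ∃ f : ℕ → V → ℝ, f = fun k => T ^ k *ᵥ z := ⟨_, rfl⟩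
  have f0 : f 0 = z := by simp [hf]
  have fs : ∀ k, T *ᵥ f k = f (k + 1) := fun k => by simp only [hf, mulVec_mulVec, pow_succ']
  have fp : ∀ j k, T ^ j *ᵥ f k = f (j + k) := fun j k => by simp only [hf, mulVec_mulVec, pow_add]
  obtain ⟨μ, hμ⟩ : ∃ μ : ℕ → ℝ, μ = fun k => f 0 ⬝ᵥ f k := ⟨_, rfl⟩
  have mu : ∀ a b, f a ⬝ᵥ f b = μ (a + b) := fun a => by
    induction a with
    | zero => exact fun b => by simp [hμ]
    | succ a ih => exact fun b => by rw [← fs, ← hT, fs, ih, Nat.add_right_comm, add_assoc]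
  have t1 : T *ᵥ u = u - y := by rw [← hu]; simp
  have t2 : T *ᵥ u' = y - u' := by rw [← hu']; simp
  have f1 : f 1 = (1 / 2 : ℝ) • (u - u') := by
    rw [← fs, f0, hz, mulVec_smul, mulVec_add, t1, t2]
    module
  have e1 : u = f 0 + f 1 := by rw [f0, f1, hz]; module
  have e2 : u' = f 0 - f 1 := by rw [f0, f1, hz]; module
  have e3 : y = f 0 - f 2 := by rw [← hu, e1, mulVec_add, fs, fs]; module
  have sq : ∀ w : V → ℝ, 0 ≤ w ⬝ᵥ w := fun w => Finset.sum_nonneg fun i _ => mul_self_nonneg _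
  have o : ∀ j ≤ m, μ 1 - μ 3 = μ (2 * j + 1) - μ (2 * j + 3) := fun j => by
    induction j with
    | zero => exact fun _ => rfl
    | succ j ih =>
      intro hj
      have := h0 j hj
      rw [e3, mulVec_sub, fp, fp] at this
      simp only [sub_dotProduct, dotProduct_sub, mu] at this
      rw [ih (by omega)]
      ring_nf at this ⊢
      linarith
  have e : ∀ j : ℕ, (j + 1) * (μ (2 * j) - μ (2 * j + 2)) ≤ μ 0 - μ (2 * j + 2) := fun j => by
    induction j with
    | zero => simp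
    | succ j ih =>
      have := sq (f j - f (j + 2))
      simp only [sub_dotProduct, dotProduct_sub, mu] at this
      have k := mul_le_mul_of_nonneg_left this (show (0 : ℝ) ≤ j + 1 by positivity)
      push_cast
      ring_nf at ih k ⊢
      linarith
  have a1 := h2 (f m - f (m + 1))
  have a2 := h1 (f m + f (m + 1))
  simp only [mulVec_sub, mulVec_add, fs, sub_dotProduct, dotProduct_sub, add_dotProduct,
    dotProduct_add, mu] at a1 a2
  have a3 := sq (f (m + 1))
  have a4 := sq (f 1)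
  rw [mu] at a3 a4
  have a5 := e m
  have a6 := o m le_rfl
  have a7 : |μ 1 - μ 3| ≤ μ (2 * m) - μ (2 * m + 2) := by
    rw [abs_le]
    ring_nf at a1 a2 a6 ⊢
    constructor <;> linarith
  have a8 : y ⬝ᵥ u - y ⬝ᵥ u' = 2 * (μ 1 - μ 3) := by
    rw [e3, e1, e2]
    simp only [sub_dotProduct, dotProduct_sub, dotProduct_add, mu]
    ring
  have a9 : u ⬝ᵥ u + u' ⬝ᵥ u' = 2 * (μ 0 + μ 2) := by
    rw [e1, e2]
    simp only [sub_dotProduct, dotProduct_sub, dotProduct_add, add_dotProduct, mu]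
    ring
  have b := mul_le_mul_of_nonneg_left a7 (show (0 : ℝ) ≤ m + 1 by positivity)
  rw [a8, a9, abs_mul, abs_two]
  ring_nf at a3 a4 a5 b ⊢
  linarith

theorem walk_of_pow {G : SimpleGraph V} {T : Matrix V V ℝ} (hT : ∀ i j, ¬G.Adj i j → T i j = 0)
    (k : ℕ) : ∀ i j, (T ^ k) i j ≠ 0 → ∃ w : G.Walk i j, w.length = k := by
  induction k with
  | zero =>
    intro i j h
    obtain rfl : i = j := by
      by_contra c
      simp [c] at h
    exact ⟨.nil, rfl⟩
  | succ k ih =>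
    intro i j h
    rw [pow_succ', mul_apply] at h
    obtain ⟨l, -, hl⟩ := Finset.exists_ne_zero_of_sum_ne_zero h
    obtain ⟨w, hw⟩ := ih l j (right_ne_zero_of_mul hl)
    exact ⟨.cons (by_contra fun c => left_ne_zero_of_mul hl (hT i l c)) w, by simp [hw]⟩

omit [Fintype V] in
theorem path_or_cycle {G : SimpleGraph V} {u v : V} (p : G.Walk u v) :
    (∃ q : G.Walk u v, q.IsPath ∧ q.length ≤ p.length ∧ q.length % 2 = p.length % 2) ∨
      ∃ (a : V) (c : G.Walk a a), c.IsCycle ∧ Odd c.length ∧ c.length ≤ p.length := by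
  induction p with
  | nil => exact Or.inl ⟨.nil, .nil, le_rfl, rfl⟩
  | @cons u w v h p ih =>
    rcases ih with ⟨q, q1, q2, q3⟩ | ⟨a, c, c1, c2, c3⟩
    · by_cases hu : u ∈ q.support
      · have l := congrArg SimpleGraph.Walk.length (q.take_spec hu)
        rw [SimpleGraph.Walk.length_append] at l
        rcases Nat.even_or_odd' (q.takeUntil u hu).length with ⟨k, hk | hk⟩
        · have k0 : k ≠ 0 := fun e =>
            h.ne' (SimpleGraph.Walk.eq_of_length_eq_zero (p := q.takeUntil u hu) (by omega))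
          refine Or.inr ⟨u, .cons h (q.takeUntil u hu), ?_, ⟨k, by simp [hk]⟩, by simp; omega⟩
          rw [SimpleGraph.Walk.isCycle_iff_isPath_tail_and_le_length]
          exact ⟨by simpa using q1.takeUntil hu, by simp; omega⟩
        · exact Or.inl ⟨q.dropUntil u hu, q1.dropUntil hu, by simp; omega, by simp; omega⟩
      · exact Or.inl ⟨.cons h q, q1.cons hu, by simp; omega, by simp; omega⟩
    · exact Or.inr ⟨a, c, c1, c2, by simp; omega⟩

omit [Fintype V] in
theorem odd_walk {G : SimpleGraph V} {g : ℕ}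
    (h : ∀ (a : V) (c : G.Walk a a), c.IsCycle → Odd c.length → g ≤ c.length)
    (v : V) (p : G.Walk v v) (hp : Odd p.length) : g ≤ p.length := by
  rcases path_or_cycle p with ⟨q, q1, -, q3⟩ | ⟨a, c, c1, c2, c3⟩
  · rw [SimpleGraph.Walk.isPath_iff_nil, ← SimpleGraph.Walk.length_eq_zero_iff] at q1
    obtain ⟨k, hk⟩ := hp
    omega
  · exact (h a c c1 c2).trans c3

end Pool.Agent.MP_df0aa7_co.h66
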