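import Pool.Agent.MP_df0aa7_co.h66.Ineq
import Pool.Agent.MP_df0aa7_co.h66.Odd

/-! Determinants with a barrier on the trace of the resolvent: one vertex more. -/

set_option autoImplicit false

namespace Pool.Agent.MP_df0aa7_co.h66

open Matrix Finset h57

variable {V : Type} [Fintype V] [DecidableEq V] {S : Matrix V V ℝ} {K : Finset V} {v : V}
  {β c : ℝ}

/-- the trace of the resolvent, shifted -/
noncomputable def tau (S : Matrix V V ℝ) (K : Finset V) : ℝ := (Gi 1 S K).trace + K.card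

/-- the weight -/
noncomputable def Wt (β : ℝ) (S : Matrix V V ℝ) (K : Finset V) : ℝ :=
  D 1 S K * D 1 (-S) K * Real.exp (-(β * (tau S K + tau (-S) K)))

/-- `S` cut to `K` -/
def cut (S : Matrix V V ℝ) (K : Finset V) : Matrix V V ℝ :=
  of fun i j => if i ∈ K ∧ j ∈ K then S i j else 0

omit [Fintype V] [DecidableEq V] in
theorem sy_neg (h : Sy S) : Sy (-S) :=
  ⟨fun i j => congrArg Neg.neg (h.symm i j), fun i => neg_eq_zero.2 (h.diag i)⟩

theorem Wt_nonneg (β : ℝ) (S : Matrix V V ℝ) (K : Finset V) : 0 ≤ Wt β S K :=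
  mul_nonneg (mul_nonneg (D_nonneg _ _ _) (D_nonneg _ _ _)) (Real.exp_pos _).le

theorem Wt_zero (h : ¬((pad 1 S K).PosDef ∧ (pad 1 (-S) K).PosDef)) : Wt β S K = 0 := by
  rcases not_and_or.1 h with h | h <;> simp [Wt, D, h]

omit [Fintype V] in
theorem pad_pos (S : Matrix V V ℝ) (K : Finset V) : pad 1 S K = 1 - cut S K := by
  ext i j
  simp only [pad, cut, of_apply, Matrix.sub_apply, one_apply]
  split_ifs <;> simp

omit [Fintype V] in
theorem pad_neg (S : Matrix V V ℝ) (K : Finset V) : pad 1 (-S) K = 1 + cut S K := by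
  ext i j
  simp only [pad, cut, of_apply, Matrix.add_apply, one_apply, Matrix.neg_apply]
  split_ifs <;> simp

theorem Gi_eq (p : (pad 1 S K).PosDef) : Gi 1 S K = (pad 1 S K)⁻¹ := if_pos p

theorem pad_Gi (p : (pad 1 S K).PosDef) (y : V → ℝ) : pad 1 S K *ᵥ Gi 1 S K *ᵥ y = y := by
  rw [Gi_eq p, mulVec_mulVec, mul_nonsing_inv _ ((isUnit_iff_isUnit_det _).1 p.isUnit), one_mulVec]

theorem qf_sq (x : ℝ) (S : Matrix V V ℝ) (K : Finset V) (y : V → ℝ) :
    qf (Gi x S K * Gi x S K) y = Gi x S K *ᵥ y ⬝ᵥ Gi x S K *ᵥ y := by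
  rw [qf, ← mulVec_mulVec, bil_symm (Gi_psd x S K).1]

theorem qf_sq_nonneg (x : ℝ) (S : Matrix V V ℝ) (K : Finset V) (y : V → ℝ) :
    0 ≤ qf (Gi x S K * Gi x S K) y := by
  rw [qf_sq]
  exact sum_nonneg fun _ _ => mul_self_nonneg _

/-- the odd part of the resolvent -/
theorem odd_Gi (h : Sy S) (p : (pad 1 S K).PosDef) (p' : (pad 1 (-S) K).PosDef) {y y' : V → ℝ}
    (hy : y' = y ∨ y' = -y) {m : ℕ} (h0 : ∀ j < m, y ⬝ᵥ cut S K ^ (2 * j + 1) *ᵥ y = 0) :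
    (m + 1) * |qf (Gi 1 S K) y - qf (Gi 1 (-S) K) y'| ≤
      qf (Gi 1 S K * Gi 1 S K) y + qf (Gi 1 (-S) K * Gi 1 (-S) K) y' := by
  have n : ∀ M : Matrix V V ℝ, qf M y' = qf M y := fun M => by
    rcases hy with rfl | rfl
    · rfl
    · simp [qf, mulVec_neg]
  have H : (cut S K).IsHermitian := by
    ext i j
    simp only [conjTranspose_apply, star_trivial, cut, of_apply, h.symm j i, and_comm]
  have e1 : ∀ y, pad 1 S K *ᵥ y = y - cut S K *ᵥ y := fun y => by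
    rw [pad_pos, sub_mulVec, one_mulVec]
  have e2 : ∀ y, pad 1 (-S) K *ᵥ y = y + cut S K *ᵥ y := fun y => by
    rw [pad_neg, add_mulVec, one_mulVec]
  rw [n, n, qf_sq, qf_sq]
  exact odd_part (fun y z => by rw [bil_symm H, dotProduct_comm])
    (fun y => e1 y ▸ qf_nonneg p.posSemidef y) (fun y => e2 y ▸ qf_nonneg p'.posSemidef y)
    (e1 _ ▸ pad_Gi p y) (e2 _ ▸ pad_Gi p' y) h0

/-- Schur complement data -/
theorem ins (h : Sy S) (hv : v ∉ K) (p : (pad 1 S (insert v K)).PosDef) :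
    0 < 1 - qf (Gi 1 S K) (rr S K v) ∧
    D 1 S (insert v K) = D 1 S K * (1 - qf (Gi 1 S K) (rr S K v)) ∧
    tau S (insert v K) = tau S K + (1 + qf (Gi 1 S K * Gi 1 S K) (rr S K v)) /
      (1 - qf (Gi 1 S K) (rr S K v)) ∧
    Gi 1 S (insert v K) v v = 1 / (1 - qf (Gi 1 S K) (rr S K v)) ∧
    (Gi 1 S (insert v K) * Gi 1 S (insert v K)) v v =
      (1 + qf (Gi 1 S K * Gi 1 S K) (rr S K v)) / (1 - qf (Gi 1 S K) (rr S K v)) ^ 2 := by
  have q := pd_sub h hv p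
  have d := det_ins h hv q
  rw [← Gi_eq q] at d
  have a0 : 0 < 1 - qf (Gi 1 S K) (rr S K v) :=
    (mul_pos_iff_of_pos_left q.det_pos).1 (d ▸ p.det_pos)
  have r0 : rr S K v v = 0 := if_neg hv
  have H := (Gi_psd 1 S K).1
  have ge : Gi 1 S K *ᵥ Pi.single v 1 = Pi.single v 1 := by
    have u := (isUnit_iff_isUnit_det _).1 q.isUnit
    conv_lhs => rw [← pad_e (x := 1) (S := S) hv]
    rw [Gi_eq q, mulVec_mulVec, nonsing_inv_mul _ u, one_mulVec]
  have gv : ∀ y, (Gi 1 S K *ᵥ y) v = y v := fun y => by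
    have := bil_symm H (Pi.single v 1) y
    rw [ge] at this
    simpa using this
  obtain ⟨a, ha⟩ : ∃ a, a = 1 - qf (Gi 1 S K) (rr S K v) := ⟨_, rfl⟩
  obtain ⟨w, hw⟩ : ∃ w : V → ℝ, w = Pi.single v 1 + Gi 1 S K *ᵥ rr S K v := ⟨_, rfl⟩
  have w1 : w v = 1 := by simp [hw, gv, r0]
  have w2 : w ⬝ᵥ w = 1 + qf (Gi 1 S K * Gi 1 S K) (rr S K v) := by
    rw [qf_sq, hw]
    simp [add_dotProduct, dotProduct_add, gv, r0]
  have w3 : pad 1 S (insert v K) *ᵥ w = a • Pi.single v 1 := by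
    have : rr S K v ⬝ᵥ w = 1 - a := by simp [hw, ha, qf, r0]
    rw [pad_ins h hv, this, w1, hw, mulVec_add, pad_Gi q, pad_e hv]
    module
  rw [← ha] at a0 d ⊢
  have inv : Gi 1 S (insert v K) =
      Gi 1 S K - vecMulVec (Pi.single v 1) (Pi.single v 1) + a⁻¹ • vecMulVec w w := by
    rw [Gi_eq p]
    refine inv_eq_right_inv (ext_iff_mulVec.2 fun y => ?_)
    have k : w ⬝ᵥ y = y v + rr S K v ⬝ᵥ Gi 1 S K *ᵥ y := by
      rw [hw, add_dotProduct, bil_symm H (rr S K v), dotProduct_comm y]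
      simp
    have e : pad 1 S (insert v K) *ᵥ Pi.single v 1 = Pi.single v 1 - rr S K v := by
      rw [pad_ins h hv, pad_e hv]
      simp [r0]
    rw [← mulVec_mulVec, add_mulVec, sub_mulVec, smul_mulVec, vecMulVec_mulVec, vecMulVec_mulVec,
      op_smul_eq_smul, op_smul_eq_smul, mulVec_add, mulVec_sub, mulVec_smul, mulVec_smul,
      mulVec_smul, w3, e, pad_ins h hv, pad_Gi q, gv, k, one_mulVec, single_one_dotProduct,
      smul_comm a⁻¹, smul_smul a⁻¹, inv_mul_cancel₀ a0.ne']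
    module
  have gvv : Gi 1 S K v v = 1 := by simpa using congrFun ge v
  have col : Gi 1 S (insert v K) *ᵥ Pi.single v 1 = a⁻¹ • w := by
    rw [inv, add_mulVec, sub_mulVec, smul_mulVec, vecMulVec_mulVec, vecMulVec_mulVec, ge]
    simp [w1]
  refine ⟨a0, by rw [D, D, if_pos p, if_pos q, d], ?_, ?_, ?_⟩
  · rw [tau, tau, inv, trace_add, trace_sub, trace_smul, trace_vecMulVec, trace_vecMulVec, w2,
      card_insert_of_notMem hv]
    simp [div_eq_inv_mul]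
    ring
  · simpa [w1] using congrFun col v
  · rw [← qf_single (Gi 1 S (insert v K) * Gi 1 S (insert v K)), qf_sq, col,
      smul_dotProduct, dotProduct_smul, w2]
    simp [div_eq_inv_mul, sq, mul_assoc]

theorem Wt_ins (h : Sy S) (hv : v ∉ K) (p : (pad 1 S (insert v K)).PosDef)
    (p' : (pad 1 (-S) (insert v K)).PosDef) : Wt β S (insert v K) = Wt β S K *
      ((1 - qf (Gi 1 S K) (rr S K v)) * (1 - qf (Gi 1 (-S) K) (rr (-S) K v)) * Real.exp
        (-(β * (1 + qf (Gi 1 S K * Gi 1 S K) (rr S K v)) / (1 - qf (Gi 1 S K) (rr S K v)) +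
          β * (1 + qf (Gi 1 (-S) K * Gi 1 (-S) K) (rr (-S) K v)) /
            (1 - qf (Gi 1 (-S) K) (rr (-S) K v))))) := by
  obtain ⟨-, a2, a3, -, -⟩ := ins h hv p
  obtain ⟨-, b2, b3, -, -⟩ := ins (sy_neg h) hv p'
  rw [Wt, Wt, a2, b2, a3, b3, mul_mul_mul_comm (D 1 S K * D 1 (-S) K), ← Real.exp_add]
  congr 1
  · ring
  · congr 1
    ring

theorem small {m : ℕ} {t X : ℝ} (hm : 8 ≤ β * (m + 1)) (ht : 0 ≤ t) (hβ : 0 ≤ β)
    (h : (m + 1) * t ≤ X) : t ≤ β * X / 8 := by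
  have := mul_le_mul_of_nonneg_left h hβ
  have := mul_le_mul_of_nonneg_right hm ht
  linarith

/-- lower bound for the weight after adding `v` -/
theorem step_low (h : Sy S) (hv : v ∉ K) (hc : 0 < c) (hβ : 0 ≤ β) {m : ℕ}
    (hm : 8 ≤ β * (m + 1))
    (h0 : ∀ j < m, rr S K v ⬝ᵥ cut S K ^ (2 * j + 1) *ᵥ rr S K v = 0) :
    Wt β S K * (c * (2 - c - 2 * β - qf (Gi 1 S K + Gi 1 (-S) K +
      β • (Gi 1 S K * Gi 1 S K + Gi 1 (-S) K * Gi 1 (-S) K)) (rr S K v))) ≤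
      Wt β S (insert v K) := by
  by_cases p : (pad 1 S K).PosDef ∧ (pad 1 (-S) K).PosDef
  swap
  · rw [Wt_zero p, zero_mul]
    exact Wt_nonneg _ _ _
  have r : rr (-S) K v = -rr S K v := by
    ext u
    simp only [rr, Matrix.neg_apply, Pi.neg_apply]
    split_ifs <;> simp
  have o := small hm (abs_nonneg _) hβ (odd_Gi h p.1 p.2 (Or.inr r) h0)
  have n : ∀ M : Matrix V V ℝ, qf M (rr (-S) K v) = qf M (rr S K v) := fun M => by
    simp [qf, r, mulVec_neg]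
  have b1 := mul_nonneg hβ (qf_sq_nonneg 1 S K (rr S K v))
  have b2 := mul_nonneg hβ (qf_sq_nonneg 1 (-S) K (rr (-S) K v))
  have e : qf (Gi 1 S K + Gi 1 (-S) K +
      β • (Gi 1 S K * Gi 1 S K + Gi 1 (-S) K * Gi 1 (-S) K)) (rr S K v) =
      qf (Gi 1 S K) (rr S K v) + qf (Gi 1 (-S) K) (rr (-S) K v) +
        β * (qf (Gi 1 S K * Gi 1 S K) (rr S K v) +
          qf (Gi 1 (-S) K * Gi 1 (-S) K) (rr (-S) K v)) := by
    rw [n, n]
    simp only [qf, add_mulVec, smul_mulVec, dotProduct_add, dotProduct_smul, smul_eq_mul]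
  rw [e]
  by_cases a : 0 < 1 - qf (Gi 1 S K) (rr S K v) ∧ 0 < 1 - qf (Gi 1 (-S) K) (rr (-S) K v)
  · rw [Wt_ins h hv (pd_ins h hv p.1 (Gi_eq p.1 ▸ a.1))
      (pd_ins (sy_neg h) hv p.2 (Gi_eq p.2 ▸ a.2))]
    refine mul_le_mul_of_nonneg_left (le_trans (le_of_eq (by ring))
      (I1 hc a.1 a.2 (by linarith) (by linarith) ?_)) (Wt_nonneg _ _ _)
    rw [sub_sub_sub_cancel_left, abs_sub_comm]
    linarith
  · refine le_trans (mul_nonpos_of_nonneg_of_nonpos (Wt_nonneg _ _ _)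
      (mul_nonpos_of_nonneg_of_nonpos hc.le ?_)) (Wt_nonneg _ _ _)
    have o' := abs_le.1 o
    rcases not_and_or.1 a with a | a <;> linarith [not_lt.1 a, o'.1, o'.2]

/-- upper bound for the diagonal entries -/
theorem diag_up (h : Sy S) (hv : v ∈ K) (hc : 1 / 3 ≤ c) (hβ : 0 ≤ β) {m : ℕ}
    (hm : 8 ≤ β * (m + 1)) (h0 : ∀ j < m, (cut S K ^ (2 * j + 1)) v v = 0) :
    Wt β S K * (Gi 1 S K + Gi 1 (-S) K +
      β • (Gi 1 S K * Gi 1 S K + Gi 1 (-S) K * Gi 1 (-S) K)) v v ≤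
      c * Wt β S (K.erase v) + 1 / c * Wt β S K := by
  have c0 : 0 < c := by linarith
  by_cases p : (pad 1 S K).PosDef ∧ (pad 1 (-S) K).PosDef
  swap
  · have := Wt_nonneg β S (K.erase v)
    rw [Wt_zero p, zero_mul]
    positivity
  have o := small hm (abs_nonneg _) hβ (odd_Gi h p.1 p.2 (y := Pi.single v 1) (Or.inl rfl)
    fun j hj => (qf_single _ v).trans (h0 j hj))
  simp only [qf_single] at o
  have n := K.notMem_erase v
  have i := insert_erase hv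
  obtain ⟨a1, -, -, a4, a5⟩ := ins h n (i.symm ▸ p.1)
  obtain ⟨b1, -, -, b4, b5⟩ := ins (sy_neg h) n (i.symm ▸ p.2)
  have w := Wt_ins (β := β) h n (i.symm ▸ p.1) (i.symm ▸ p.2)
  rw [i] at a4 a5 b4 b5 w
  have a6 := qf_nonneg (Gi_psd 1 S (K.erase v)) (rr S (K.erase v) v)
  have b6 := qf_nonneg (Gi_psd 1 (-S) (K.erase v)) (rr (-S) (K.erase v) v)
  have a7 := qf_sq_nonneg 1 S (K.erase v) (rr S (K.erase v) v)
  have b7 := qf_sq_nonneg 1 (-S) (K.erase v) (rr (-S) (K.erase v) v)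
  simp only [Matrix.add_apply, Matrix.smul_apply, smul_eq_mul]
  rw [a4, a5, b4, b5] at o ⊢
  generalize qf (Gi 1 S (K.erase v) * Gi 1 S (K.erase v)) (rr S (K.erase v) v) = X at *
  generalize qf (Gi 1 (-S) (K.erase v) * Gi 1 (-S) (K.erase v)) (rr (-S) (K.erase v) v) = Y at *
  obtain ⟨a, ha⟩ : ∃ a, a = 1 - qf (Gi 1 S (K.erase v)) (rr S (K.erase v) v) := ⟨_, rfl⟩
  obtain ⟨b, hb⟩ : ∃ b, b = 1 - qf (Gi 1 (-S) (K.erase v)) (rr (-S) (K.erase v) v) := ⟨_, rfl⟩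
  rw [← ha, ← hb] at o w ⊢
  rw [← ha] at a1
  rw [← hb] at b1
  have k := I2 hc (a := 1 / a) (b := 1 / b) (X := β * ((1 + X) / a ^ 2)) (Y := β * ((1 + Y) / b ^ 2))
    (one_le_one_div a1 (by linarith)) (one_le_one_div b1 (by linarith)) (by positivity)
    (by positivity) (by linarith)
  have e : Wt β S K * (1 / a * (1 / b) *
      Real.exp (β * ((1 + X) / a ^ 2) / (1 / a) + β * ((1 + Y) / b ^ 2) / (1 / b))) =
      Wt β S (K.erase v) := by
    have : β * ((1 + X) / a ^ 2) / (1 / a) + β * ((1 + Y) / b ^ 2) / (1 / b) =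
        β * (1 + X) / a + β * (1 + Y) / b := by field_simp
    rw [this, w, Real.exp_neg]
    field_simp
  have := mul_le_mul_of_nonneg_left k (Wt_nonneg β S K)
  rw [← e]
  linarith

end Pool.Agent.MP_df0aa7_co.h66
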