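import Pool.Agent.MP_df0aa7_co.h66.Main

/-! Maximum degree at most `d`, no odd cycle shorter than `g`: a signing of norm below
`2√(d-1) + C√d/(d+g)`. -/

set_option autoImplicit false

namespace Pool.Agent.MP_df0aa7_co.h66

open Matrix Finset h57

theorem signing_girth {d g : ℕ} (hd : 2 ≤ d) (hg : 64 ≤ g) {V : Type} [Fintype V] [DecidableEq V]
    (G : SimpleGraph V) [DecidableRel G.Adj] (hG : ∀ v, G.degree v ≤ d)
    (ho : ∀ (a : V) (c : G.Walk a a), c.IsCycle → Odd c.length → g ≤ c.length) :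
    ∃ T ⊆ G.edgeFinset,
      ∀ l ∈ spectrum ℝ (of fun u v => if G.Adj u v then (if s(u, v) ∈ T then -1 else 1) else 0 :
        Matrix V V ℝ), |l| < 2 * √((d : ℝ) - 1) * (1 + 32 / g) := by
  obtain ⟨q, rfl⟩ : ∃ q, d = q + 1 := ⟨d - 1, by omega⟩
  have g0 : (64 : ℝ) ≤ g := by exact_mod_cast hg
  have q0 : 0 < √(q : ℝ) := Real.sqrt_pos.2 (by exact_mod_cast (by omega : 0 < q))
  have m0 : (g : ℝ) ≤ 2 * (((g - 2) / 2 : ℕ) + 1) + 1 := by
    exact_mod_cast (by omega : g ≤ 2 * ((g - 2) / 2 + 1) + 1)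
  have a : 32 / (g : ℝ) ≤ 1 / 2 := by rw [div_le_iff₀ (by linarith)]; linarith
  have b : (1 : ℝ) < (1 + 32 / g) * (1 - 8 / (((g - 2) / 2 : ℕ) + 1)) := by
    have b1 : (8 : ℝ) / (((g - 2) / 2 : ℕ) + 1) ≤ 17 / g := by
      rw [div_le_div_iff₀ (by positivity) (by linarith)]; linarith
    have b2 : (0 : ℝ) < 1 / g := by positivity
    have b3 : (32 : ℝ) / g = 32 * (1 / g) := by ring
    have b4 : (17 : ℝ) / g = 17 * (1 / g) := by ring
    nlinarith
  obtain ⟨σ, h⟩ := exists_odd (G := G) (m := (g - 2) / 2) (q := q)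
    (fun a p hp => by have := odd_walk ho a p hp; omega) (by omega) hG
    (x := 2 * √q * (1 + 32 / g)) (by positivity) (by nlinarith) (by nlinarith)
  refine ⟨G.edgeFinset.filter fun e => σ e = true, filter_subset _ _, fun l hl => ?_⟩
  obtain ⟨y, hy, e⟩ := spec_vec hl
  refine (h l y hy (Eq.trans ?_ e)).trans_eq (by simp)
  refine congrArg (· *ᵥ y) ?_
  ext u v
  by_cases a : G.Adj u v <;> simp [sm, sg, a]

theorem signing_odd : ∃ C : ℝ, 0 < C ∧ ∀ d g : ℕ, 2 ≤ d → ∀ (V : Type) [Fintype V] [DecidableEq V]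
    (G : SimpleGraph V) [DecidableRel G.Adj], (∀ v, G.degree v ≤ d) →
    (∀ (a : V) (c : G.Walk a a), c.IsCycle → Odd c.length → g ≤ c.length) → ∃ T ⊆ G.edgeFinset,
      ∀ l ∈ spectrum ℝ (of fun u v => if G.Adj u v then (if s(u, v) ∈ T then -1 else 1) else 0 :
        Matrix V V ℝ), |l| < 2 * √((d : ℝ) - 1) + C * √d / (d + g) := by
  obtain ⟨C, hC, h⟩ := signing
  refine ⟨64 * C + 128, by positivity, fun d g hd V _ _ G _ hG ho => ?_⟩
  have d2 : (2 : ℝ) ≤ d := by exact_mod_cast hd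
  have d0 : 0 < √(d : ℝ) := Real.sqrt_pos.2 (by linarith)
  have g0 : (0 : ℝ) ≤ g := g.cast_nonneg
  rcases le_total g (63 * d) with k | k
  · obtain ⟨T, hT, e⟩ := h d (by omega) V G hG
    refine ⟨T, hT, fun l hl => (e l hl).trans_le (add_le_add_right ?_ _)⟩
    have k' : (g : ℝ) ≤ 63 * d := by exact_mod_cast k
    rw [div_le_div_iff₀ d0 (by linarith), mul_assoc, Real.mul_self_sqrt (by linarith)]
    nlinarith
  · obtain ⟨T, hT, e⟩ := signing_girth (g := g) hd (by omega) G hG ho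
    refine ⟨T, hT, fun l hl => (e l hl).trans_le ?_⟩
    have k' : (63 : ℝ) * d ≤ g := by exact_mod_cast k
    have a : √((d : ℝ) - 1) ≤ √d := Real.sqrt_le_sqrt (by linarith)
    have b : 64 * √((d : ℝ) - 1) / g ≤ 128 * √d / (d + g) := by
      rw [div_le_div_iff₀ (by linarith) (by linarith)]
      nlinarith [mul_le_mul_of_nonneg_right a (show (0 : ℝ) ≤ d + g by linarith)]
    have c : 128 * √d / (d + g) ≤ (64 * C + 128) * √d / ((d : ℝ) + g) := by
      gcongr
      linarith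
    calc _ = 2 * √((d : ℝ) - 1) + 64 * √((d : ℝ) - 1) / g := by ring
      _ ≤ _ := by linarith

end Pool.Agent.MP_df0aa7_co.h66
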