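import Pool.Agent.MP_df0aa7_co.h66.Bar

/-! A graph without short odd cycles has a signing of norm close to `2√(d-1)`. -/

set_option autoImplicit false

namespace Pool.Agent.MP_df0aa7_co.h66

open Matrix Finset h57

variable {V : Type} [Fintype V] [DecidableEq V] {G : SimpleGraph V} [DecidableRel G.Adj]
  {K : Finset V} {v : V} {β c s : ℝ} {m : ℕ}

/-- the partition function -/
noncomputable def Zb (G : SimpleGraph V) [DecidableRel G.Adj] (β s : ℝ) (K : Finset V) : ℝ :=
  ∑ σ : Sym2 V → Bool, Wt β (s • sm G σ) K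

/-- the matrix whose quadratic form is subtracted in a step -/
noncomputable def MM (β : ℝ) (S : Matrix V V ℝ) (K : Finset V) : Matrix V V ℝ :=
  Gi 1 S K + Gi 1 (-S) K + β • (Gi 1 S K * Gi 1 S K + Gi 1 (-S) K * Gi 1 (-S) K)

theorem Zb_nonneg (β s : ℝ) (K : Finset V) : 0 ≤ Zb G β s K :=
  sum_nonneg fun _ _ => Wt_nonneg _ _ _

omit [Fintype V] [DecidableEq V] in
theorem sy_sm (s : ℝ) (σ : Sym2 V → Bool) : Sy (s • sm G σ) :=
  ⟨fun i j => congrArg (s * ·) ((ok_sm G σ).sy.symm i j),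
    fun i => (congrArg (s * ·) ((ok_sm G σ).sy.diag i)).trans (mul_zero s)⟩

theorem avg (M : Matrix V V ℝ) (r : V → ℝ) :
    ∑ t : V → Bool, qf M (fun u => r u * sg (t u)) = 2 ^ Fintype.card V * ∑ u, r u ^ 2 * M u u := by
  have q := (quad (fun _ => nice_rad) (diagonal r * M * diagonal r)).2
  rw [pi_rad, div_eq_iff (by positivity)] at q
  rw [mul_comm]
  refine Eq.trans (sum_congr rfl fun t _ => ?_) (q.trans (congrArg (· * _) ?_))
  · simp only [qf_sum, mul_diagonal, diagonal_mul]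
    exact sum_congr rfl fun i _ => sum_congr rfl fun j _ => by ring
  · refine sum_congr rfl fun u _ => ?_
    rw [diag_apply, mul_diagonal, diagonal_mul]
    ring

theorem same {S S' : Matrix V V ℝ} (h : ∀ i ∈ K, ∀ j ∈ K, S' i j = S i j) :
    Wt β S' K = Wt β S K ∧ MM β S' K = MM β S K := by
  have e : cut S' K = cut S K := by
    ext i j
    simp only [cut, of_apply]
    split_ifs with a
    exacts [h i a.1 j a.2, rfl]
  have p1 : pad 1 S' K = pad 1 S K := by rw [pad_pos, pad_pos, e]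
  have p2 : pad 1 (-S') K = pad 1 (-S) K := by rw [pad_neg, pad_neg, e]
  have g1 : Gi 1 S' K = Gi 1 S K := by rw [Gi, Gi, p1]
  have g2 : Gi 1 (-S') K = Gi 1 (-S) K := by rw [Gi, Gi, p2]
  exact ⟨by rw [Wt, Wt, tau, tau, tau, tau, D, D, D, D, g1, g2, p1, p2], by rw [MM, MM, g1, g2]⟩

omit [Fintype V] in
theorem cut_off (σ : Sym2 V → Bool) (i j : V) (h : ¬G.Adj i j) : cut (s • sm G σ) K i j = 0 := by
  simp [cut, sm, h]

omit [Fintype V] in
theorem rr_sq (σ : Sym2 V → Bool) (u : V) :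
    rr (s • sm G σ) K v u ^ 2 = if u ∈ K.filter (G.Adj v) then s ^ 2 else 0 := by
  by_cases a : u ∈ K <;> by_cases b : G.Adj v u <;> cases e : σ s(v, u) <;> simp [rr, sm, sg, a, b, e]

theorem stepZ (hG : ∀ (a : V) (p : G.Walk a a), Odd p.length → 2 * m + 1 < p.length)
    (hc : 1 / 3 ≤ c) (hβ : 0 ≤ β) (hm : 8 ≤ β * (m + 1)) {c' : ℝ} (hc' : 0 < c') (hv : v ∉ K)
    (ih : ∀ u ∈ K, G.Adj v u → c ^ 2 * Zb G β s (K.erase u) ≤ Zb G β s K) :
    c' * (2 - c' - 2 * β - 2 * s ^ 2 * (K.filter (G.Adj v)).card / c) * Zb G β s K ≤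
      Zb G β s (insert v K) := by
  have c0 : 0 < c := by linarith
  have a1 : ∑ σ, Wt β (s • sm G σ) K *
      (c' * (2 - c' - 2 * β - qf (MM β (s • sm G σ) K) (rr (s • sm G σ) K v))) ≤
      Zb G β s (insert v K) := by
    refine sum_le_sum fun σ _ => step_low (sy_sm s σ) hv hc' hβ hm fun j hj => ?_
    refine (qf_sum _ _).trans (sum_eq_zero fun a _ => sum_eq_zero fun b _ => ?_)
    by_contra h
    obtain ⟨w, hw⟩ := walk_of_pow (cut_off σ) _ a b (left_ne_zero_of_mul h)
    have n : ∀ u, rr (s • sm G σ) K v u ≠ 0 → G.Adj v u := fun u k => by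
      by_contra e
      simp [rr, sm, e] at k
    have h' := right_ne_zero_of_mul h
    have := hG v (.cons (n a (left_ne_zero_of_mul h')) (w.concat (n b (right_ne_zero_of_mul h')).symm))
      ⟨j + 1, by simp [hw]; ring⟩
    simp [hw] at this
    omega
  have a2 : ∀ u ∈ K.filter (G.Adj v), ∑ σ, Wt β (s • sm G σ) K * MM β (s • sm G σ) K u u ≤
      2 / c * Zb G β s K := fun u hu => by
    obtain ⟨u1, u2⟩ := mem_filter.1 hu
    refine (sum_le_sum fun σ _ => diag_up (sy_sm s σ) u1 hc hβ hm fun j hj => ?_).trans ?_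
    · by_contra h
      obtain ⟨w, hw⟩ := walk_of_pow (cut_off σ) _ u u h
      have := hG u w ⟨j, hw⟩
      omega
    · rw [sum_add_distrib, ← mul_sum, ← mul_sum, ← Zb, ← Zb]
      have := mul_le_mul_of_nonneg_left (ih u u1 u2) (one_div_pos.2 c0).le
      have e : 1 / c * (c ^ 2 * Zb G β s (K.erase u)) = c * Zb G β s (K.erase u) := by field_simp
      have : 2 / c = 1 / c + 1 / c := by ring
      rw [this]
      linarith
  have a3 := sum_le_card_nsmul _ _ _ a2
  rw [nsmul_eq_mul] at a3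
  refine le_trans ?_ a1
  refine le_of_mul_le_mul_left ?_ (pow_pos two_pos (Fintype.card V))
  rw [resample v]
  have a4 : ∀ σ, ∑ t : V → Bool, Wt β (s • sm G (fl v t σ)) K * (c' * (2 - c' - 2 * β -
      qf (MM β (s • sm G (fl v t σ)) K) (rr (s • sm G (fl v t σ)) K v))) =
      2 ^ Fintype.card V * (c' * (2 - c' - 2 * β) * Wt β (s • sm G σ) K - c' * s ^ 2 *
        ∑ u ∈ K.filter (G.Adj v), Wt β (s • sm G σ) K * MM β (s • sm G σ) K u u) := fun σ => by
    have e := fun t => same (β := β) (S := s • sm G σ) (S' := s • sm G (fl v t σ))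
      fun i a j b => congrArg (s * ·) (sm_off G t σ hv i a j b)
    have r : ∀ t, rr (s • sm G (fl v t σ)) K v = fun u => rr (s • sm G σ) K v u * sg (t u) :=
      fun t => by
        ext u
        simp [rr, sm_on, mul_assoc]
    simp only [(e _).1, (e _).2, r, ← mul_sum, sum_sub_distrib, avg, rr_sq, ite_mul, zero_mul,
      sum_ite_mem, univ_inter]
    simp
    ring
  rw [sum_congr rfl fun σ _ => a4 σ, ← mul_sum, sum_sub_distrib, ← mul_sum, ← mul_sum, sum_comm,
    ← Zb]
  refine mul_le_mul_of_nonneg_left ?_ (by positivity)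
  have := mul_le_mul_of_nonneg_left a3 (show 0 ≤ c' * s ^ 2 by positivity)
  refine le_trans (le_of_eq ?_) (sub_le_sub_left this _)
  ring

theorem nb_le {d : ℕ} (hd : ∀ v, G.degree v ≤ d + 1) {u : V} (hv : v ∉ K) (a : G.Adj v u) :
    (K.filter (G.Adj u)).card ≤ d := by
  have : insert v (K.filter (G.Adj u)) ⊆ G.neighborFinset u := fun w hw => by
    rcases mem_insert.1 hw with rfl | hw
    · simpa using a.symm
    · simpa using (mem_filter.1 hw).2
  have k := (card_le_card this).trans (hd u)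
  rw [card_insert_of_notMem fun h => hv (mem_filter.1 h).1] at k
  omega

theorem growZ (hG : ∀ (a : V) (p : G.Walk a a), Odd p.length → 2 * m + 1 < p.length)
    (hc : 1 / 3 ≤ c) (hβ : 0 ≤ β) (hm : 8 ≤ β * (m + 1)) {q : ℕ} (hd : ∀ v, G.degree v ≤ q + 1)
    (hs : c ^ 2 = q * s ^ 2) (hx : 2 * c + β ≤ 1) (n : ℕ) : ∀ H : Finset V, H.card = n → ∀ v ∈ H,
      (H.filter (G.Adj v)).card ≤ q → c ^ 2 * Zb G β s (H.erase v) ≤ Zb G β s H := by
  have c0 : 0 < c := by linarith
  induction n with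
  | zero => exact fun H h v hv => absurd (card_pos.2 ⟨v, hv⟩) (by omega)
  | succ n ih =>
    intro H h v hv hq
    have n' := H.notMem_erase v
    have k := stepZ (s := s) hG hc hβ hm c0 n' fun u u1 u2 =>
      ih _ (by have := card_erase_add_one hv; omega) u u1 (nb_le hd n' u2)
    rw [insert_erase hv] at k
    refine le_trans (mul_le_mul_of_nonneg_right ?_ (Zb_nonneg _ _ _)) k
    have e : (((H.erase v).filter (G.Adj v)).card : ℝ) ≤ q := by
      exact_mod_cast (card_le_card (filter_subset_filter _ (erase_subset _ _))).trans hq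
    have : 2 * s ^ 2 * ((H.erase v).filter (G.Adj v)).card / c ≤ 2 * c := by
      rw [div_le_iff₀ c0]
      nlinarith [mul_le_mul_of_nonneg_left e (sq_nonneg s)]
    rw [sq]
    exact mul_le_mul_of_nonneg_left (by linarith) c0.le

theorem Zb_pos (hG : ∀ (a : V) (p : G.Walk a a), Odd p.length → 2 * m + 1 < p.length)
    (hc : 1 / 3 ≤ c) (hβ : 0 ≤ β) (hm : 8 ≤ β * (m + 1)) {q : ℕ} (hq : 1 ≤ q)
    (hd : ∀ v, G.degree v ≤ q + 1) (hs : c ^ 2 = q * s ^ 2) (hx : 2 * c + β < 1) (H : Finset V) :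
    0 < Zb G β s H := by
  have c0 : 0 < c := by linarith
  induction H using Finset.induction_on with
  | empty => exact sum_pos (fun σ _ => by simp [Wt, D_empty, Real.exp_pos]) univ_nonempty
  | insert v H hv h1 =>
    have k := stepZ (s := s) hG hc hβ hm (c' := 1 - 2 * c - β) (by linarith) hv fun u u1 u2 =>
      growZ hG hc hβ hm hd hs hx.le _ _ rfl u u1 (nb_le hd hv u2)
    refine lt_of_lt_of_le (mul_pos (mul_pos (by linarith) ?_) h1) k
    have e : ((H.filter (G.Adj v)).card : ℝ) ≤ 2 * q := by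
      have : H.filter (G.Adj v) ⊆ G.neighborFinset v := fun w hw => by
        simpa using (mem_filter.1 hw).2
      exact_mod_cast ((card_le_card this).trans (hd v)).trans (by omega)
    have : 2 * s ^ 2 * (H.filter (G.Adj v)).card / c ≤ 4 * c := by
      rw [div_le_iff₀ c0]
      nlinarith [mul_le_mul_of_nonneg_left e (sq_nonneg s)]
    linarith

/-- a signing of norm below `x`, when `x (1 - 8 / (m + 1)) > 2 √q` -/
theorem exists_odd (hG : ∀ (a : V) (p : G.Walk a a), Odd p.length → 2 * m + 1 < p.length)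
    {q : ℕ} (hq : 1 ≤ q) (hd : ∀ v, G.degree v ≤ q + 1) {x : ℝ} (hx0 : 0 < x) (hx3 : x ≤ 3 * √q)
    (hx : 2 * √q < x * (1 - 8 / (m + 1))) :
    ∃ σ, ∀ (l : ℝ) (y : V → ℝ), y ≠ 0 → sm G σ *ᵥ y = l • y → |l| < x := by
  have z := Zb_pos (s := x⁻¹) (c := √q / x) (β := 8 / (m + 1)) hG
    (by rw [le_div_iff₀ hx0]; linarith) (by positivity) (le_of_eq (by field_simp)) hq hd
    (by rw [div_pow, Real.sq_sqrt q.cast_nonneg, inv_pow, div_eq_mul_inv])
    (by rw [← lt_sub_iff_add_lt, ← mul_div_assoc, div_lt_iff₀ hx0]; linarith) univ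
  obtain ⟨σ, -, h⟩ := exists_ne_zero_of_sum_ne_zero z.ne'
  have p : (pad 1 (x⁻¹ • sm G σ) univ).PosDef ∧ (pad 1 (-(x⁻¹ • sm G σ)) univ).PosDef :=
    by_contra fun p => h (Wt_zero p)
  have e : cut (x⁻¹ • sm G σ) univ = x⁻¹ • sm G σ := by
    ext i j
    simp [cut]
  refine ⟨σ, fun l y hy k => ?_⟩
  have a := (pd_iff p.1.1).1 p.1 y hy
  have b := (pd_iff p.2.1).1 p.2 y hy
  have n : 0 ≤ y ⬝ᵥ y := sum_nonneg fun i _ => mul_self_nonneg _
  rw [qf, pad_pos, e, sub_mulVec, smul_mulVec, one_mulVec, k, smul_smul, dotProduct_sub,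
    dotProduct_smul, smul_eq_mul, ← one_sub_mul] at a
  rw [qf, pad_neg, e, add_mulVec, smul_mulVec, one_mulVec, k, smul_smul, dotProduct_add,
    dotProduct_smul, smul_eq_mul, ← one_add_mul] at b
  have a' := mul_pos hx0 (pos_of_mul_pos_left a n)
  have b' := mul_pos hx0 (pos_of_mul_pos_left b n)
  rw [mul_sub, mul_inv_cancel_left₀ hx0.ne'] at a'
  rw [mul_add, mul_inv_cancel_left₀ hx0.ne'] at b'
  exact abs_lt.2 ⟨by linarith, by linarith⟩

end Pool.Agent.MP_df0aa7_co.h66
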